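import Pool.Agent.V8H40.BL.Exist

/-!
# Mutually non-helping oracles for every recursive set

Answer to Q1: yes. For every relative Blum measure there is `g ∈ R₂` such that for every recursive
set `A` and every `s ∈ R₁` there is a recursive set `B` with `Φ-Comp(B) >_ae s` such that

* (i) `Φ-Comp(A) >_io g □ t` implies `Φ^B-Comp(A) >_io t` for all `t ∈ R₁`, and
* (ii) `Φ-Comp(B) >_io t` implies `Φ^A-Comp(B) >_io t` for all `t ∈ R₁`.

Idea (helper37). `B` is built by a memory-free finite injury construction. The budgets of the
requirement of level `l` are the running times of plain programs for the tails of the same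
construction from level `l + 1` on (Blum speed-up by the recursion theorem). So every program for
`B` with the oracle `A` is slower almost everywhere than some plain program for `B`, which gives
(ii). For (i), a program for `A` with the oracle `B` is simulated without an oracle: a tail program
for `B` gives an initial segment of `B` beyond which, by compactness of Cantor space, all cheap
computations of the program agree with `A`.

`exists_relBlum` shows that relative Blum measures in the sense of the definitions exist.
-/

set_option autoImplicit false

namespace Pool.Agent.Results.MP_f7ced4_lc.NonHelping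

open Pool.Agent.V8H40.BL

/-- The definition of relative Blum measures is not vacuous. -/
theorem exists_measure : ∃ φ Φ : (ℕ → Bool) → ℕ → ℕ →. ℕ, RelBlum φ Φ := exists_relBlum

/-- For every relative Blum measure there is `g ∈ R₂` such that for every recursive set `A` there
is an arbitrarily complex recursive set `B` which satisfies (i) and (ii). -/
theorem result (φ Φ : (ℕ → Bool) → ℕ → ℕ →. ℕ) (h : RelBlum φ Φ) :
    ∃ g : ℕ → ℕ → ℕ, Computable₂ g ∧
      ∀ A : ℕ → Bool, Computable A → ∀ s : ℕ → ℕ, Computable s →
        ∃ B : ℕ → Bool, Computable B ∧ CompAE φ Φ emp B s ∧
          (∀ t : ℕ → ℕ, Computable t →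
            CompIO φ Φ emp A (fun x => g x (t x)) → CompIO φ Φ B A t) ∧
          (∀ t : ℕ → ℕ, Computable t → CompIO φ Φ emp B t → CompIO φ Φ A B t) :=
  non_helping φ Φ h

end Pool.Agent.Results.MP_f7ced4_lc.NonHelping
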